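import Pool.Agent.H56.KAL.Stmts
import Pool.Agent.H73.KAF.RST

/-!
# Remez inequality for random times
-/

set_option autoImplicit false

namespace Pool.KAL

open Finset Real
open Pool.Agent.H49.Ent Pool.Agent.H32.Dense Pool.STK Pool.KAF

/-- Remez inequality for subsets of a grid whose density is bounded below. -/
theorem rme_line (hRMG : RMGStmt) (k N : ℕ) (P : Polynomial ℝ) (E : Finset ℕ) (M R G t : ℝ)
    (hP : P.natDegree ≤ k) (hE : E ⊆ range N) (hM : ∀ n ∈ E, |P.eval (n : ℝ)| ≤ M)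
    (hG : 0 < G) (hc : (N : ℝ) ≤ G * E.card) (hN : (8 * ((k : ℝ) + 1) ^ 2) * G ≤ N) (hR : 1 ≤ R)
    (ht : |t| ≤ R * N) : |P.eval t| ≤ (8 * ((k : ℝ) + 1) ^ 2 * R * G) ^ k * M := by
  have hk1 : (1 : ℝ) ≤ (k : ℝ) + 1 := by
    have : (0 : ℝ) ≤ k := Nat.cast_nonneg k
    linarith
  have hN0 : (0 : ℝ) < N := lt_of_lt_of_le (by positivity) hN
  -- size of the set
  have hcard : (8 * ((k : ℝ) + 1) ^ 2) ≤ E.card := by
    have : (8 * ((k : ℝ) + 1) ^ 2) * G ≤ E.card * G := by linarith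
    exact le_of_mul_le_mul_right this hG
  have hcard2 : 2 * k + 2 ≤ E.card := by
    have h1 : ((2 * k + 2 : ℕ) : ℝ) ≤ (E.card : ℝ) := by
      push_cast
      nlinarith
    exact_mod_cast h1
  set s : ℕ := E.card / (2 * k + 2) with hs
  have hs1 : 1 ≤ s := by
    rw [hs]
    exact Nat.div_pos hcard2 (by omega)
  have hs2 : s * (2 * k + 2) ≤ E.card := Nat.div_mul_le_self _ _
  have hs3 : s * k + 1 ≤ E.card := by nlinarith
  have hs4 : E.card < (s + 1) * (2 * k + 2) := by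
    have h2 := Nat.div_add_mod E.card (2 * k + 2)
    have h3 := Nat.mod_lt E.card (show 0 < 2 * k + 2 by omega)
    rw [← hs] at h2
    nlinarith
  have hs5 : (E.card : ℝ) ≤ 4 * ((k : ℝ) + 1) * s := by
    have h1 : ((E.card : ℕ) : ℝ) ≤ (((s + 1) * (2 * k + 2) : ℕ) : ℝ) := by exact_mod_cast hs4.le
    push_cast at h1
    have h2 : (1 : ℝ) ≤ s := by exact_mod_cast hs1
    nlinarith
  have hs0 : (0 : ℝ) < s := by exact_mod_cast hs1
  -- the set is not empty, so `M` is nonnegative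
  have hne : E.Nonempty := by
    rw [← Finset.card_pos]
    omega
  have hM0 : 0 ≤ M := by
    obtain ⟨n, hn⟩ := hne
    exact (abs_nonneg _).trans (hM n hn)
  have key := hRMG k s P (E.map Nat.castEmbedding) t (2 * R * N) M hP hs1 (by simpa using hs3)
    (by
      intro z hz
      rw [Finset.mem_map] at hz
      obtain ⟨n, hn, rfl⟩ := hz
      have hnN : (n : ℝ) ≤ N := by
        have := Finset.mem_range.mp (hE hn)
        exact_mod_cast this.le
      have hn0 : (0 : ℝ) ≤ n := Nat.cast_nonneg n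
      have h1 : |t - (n : ℝ)| ≤ |t| + |(n : ℝ)| := abs_sub t n
      rw [abs_of_nonneg hn0] at h1
      simp only [Nat.castEmbedding_apply, Int.cast_natCast]
      nlinarith)
    (by
      intro z hz
      rw [Finset.mem_map] at hz
      obtain ⟨n, hn, rfl⟩ := hz
      simpa using hM n hn)
  refine key.trans ?_
  have hB : 2 * R * N / s ≤ 8 * ((k : ℝ) + 1) * R * G := by
    rw [div_le_iff₀ hs0]
    have h1 : (N : ℝ) ≤ G * (4 * ((k : ℝ) + 1) * s) :=
      hc.trans (mul_le_mul_of_nonneg_left hs5 hG.le)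
    have h2 : 2 * R * (N : ℝ) ≤ 2 * R * (G * (4 * ((k : ℝ) + 1) * s)) :=
      mul_le_mul_of_nonneg_left h1 (by positivity)
    linarith
  have hB0 : 0 ≤ 2 * R * N / s := by positivity
  refine mul_le_mul_of_nonneg_right ?_ hM0
  have h3 : (2 * R * N / s) ^ k ≤ (8 * ((k : ℝ) + 1) * R * G) ^ k :=
    pow_le_pow_left₀ hB0 hB k
  have h4 : (8 * ((k : ℝ) + 1) ^ 2 * R * G) ^ k =
      ((k : ℝ) + 1) ^ k * (8 * ((k : ℝ) + 1) * R * G) ^ k := by
    rw [← mul_pow]
    congr 1
    ring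
  rw [h4]
  rcases Nat.eq_zero_or_pos k with h0 | h0
  · subst h0
    simp
  · have h5 : (k : ℝ) + 1 ≤ ((k : ℝ) + 1) ^ k := le_self_pow₀ hk1 (by omega)
    exact mul_le_mul h5 h3 (by positivity) (by positivity)

/-- **Remez inequality for random times.** -/
theorem rme_thm (hRMG : RMGStmt) (hGIB : GIBStmt) (hCDF : CDFStmt) : RMEStmt := by
  classical
  intro k
  have hk0 : (0 : ℝ) ≤ k := Nat.cast_nonneg k
  refine ⟨8 * ((k : ℝ) + 1) ^ 2, by nlinarith, ?_⟩
  intro Ω V _ p N T L P M e β R hp hT hdeg he hβ hβ1 hR hCH hN hA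
  set C : ℝ := 8 * ((k : ℝ) + 1) ^ 2 with hC
  have hC8 : 8 ≤ C := by rw [hC]; nlinarith
  set G : ℝ := Real.exp (C * (e + 1) / β ^ 2) with hG
  have hcdf := hCDF Ω ℕ V p T L (range N) {ω | |(P (L ω)).eval (T ω : ℝ)| ≤ M (L ω)} e β hp
    (fun ω => Finset.mem_range.mpr (hT ω)) he hβ hA (by simpa using hCH)
  refine hcdf.trans ?_
  refine Pr_mono hp.nonneg ?_
  intro ω hω hmem
  obtain ⟨h1, h2⟩ := hmem
  simp only [Finset.card_range] at h1
  have hlaw : law p L (L ω) ≠ 0 := (law_pos hp.nonneg L hω).ne'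
  have hq : IsLaw (Pool.Agent.H49.Ent.cond p L (L ω)) :=
    ⟨fun ω' => cond_nonneg hp.nonneg _ _ ω', sum_cond p _ hlaw⟩
  set E : Finset ℕ := (range N).filter fun n => |(P (L ω)).eval (n : ℝ)| ≤ M (L ω) with hE
  have h3 : β / 2 ≤ Pr (Pool.Agent.H49.Ent.cond p L (L ω)) {ω' | T ω' ∈ E} := by
    refine h2.trans (Pr_mono hq.nonneg ?_)
    intro ω' hω' hmem'
    have hL : L ω' = L ω := ((cond_pos_iff hp.nonneg L (L ω) ω').mp hω').2
    change |(P (L ω')).eval (T ω' : ℝ)| ≤ M (L ω') at hmem'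
    change T ω' ∈ E
    rw [hL] at hmem'
    rw [hE, Finset.mem_filter]
    exact ⟨Finset.mem_range.mpr (hT ω'), hmem'⟩
  have h4 := hGIB Ω ℕ (Pool.Agent.H49.Ent.cond p L (L ω)) T (range N) E (4 * e / β) (β / 2) hq
    (fun ω' => Finset.mem_range.mpr (hT ω')) (Finset.filter_subset _ _) (by positivity) h3
    (by simpa using h1)
  rw [Finset.card_range] at h4
  -- the density
  have hexp : (4 * e / β + Real.log 2) / (β / 2) ≤ C * (e + 1) / β ^ 2 := by
    have hlog : Real.log 2 ≤ 1 := by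
      have := Real.log_two_lt_d9
      linarith
    have hb2 : 0 < β ^ 2 := by positivity
    have e1 : (4 * e / β + Real.log 2) / (β / 2) = (8 * e + 2 * Real.log 2 * β) / β ^ 2 := by
      field_simp
      ring
    rw [e1]
    refine div_le_div_of_nonneg_right ?_ hb2.le
    have hlog0 : 0 ≤ Real.log 2 := Real.log_nonneg (by norm_num)
    have : 2 * Real.log 2 * β ≤ 2 := by nlinarith
    nlinarith
  have hcardE : (N : ℝ) ≤ G * E.card := by
    have h5 : Real.exp (-(C * (e + 1) / β ^ 2)) * (N : ℝ) ≤ E.card := by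
      refine le_trans ?_ h4
      refine mul_le_mul_of_nonneg_right ?_ (Nat.cast_nonneg _)
      exact Real.exp_le_exp.mpr (by linarith)
    rw [Real.exp_neg, ← hG] at h5
    have hGpos : 0 < G := Real.exp_pos _
    have h6 := mul_le_mul_of_nonneg_left h5 hGpos.le
    rwa [← mul_assoc, mul_inv_cancel₀ hGpos.ne', one_mul] at h6
  have hEsub : E ⊆ range N := Finset.filter_subset _ _
  intro t ht
  have := rme_line hRMG k N (P (L ω)) E (M (L ω)) R G t (hdeg _) hEsub
    (fun n hn => (Finset.mem_filter.mp hn).2) (Real.exp_pos _) hcardE hN hR ht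
  exact this

end Pool.KAL
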